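import Mathlib

set_option autoImplicit false

namespace Pool.Agent.Helper74.LS

open Finset

variable {E : Type*} [DecidableEq E]

theorem extend_in (N : Matroid E) {I J : Finset E} (hI : N.Indep (I : Set E))
    (hJ : N.Indep (J : Set E)) :
    ∃ A : Finset E, A ⊆ J \ I ∧ N.Indep ((I ∪ A : Finset E) : Set E) ∧
      J.card ≤ I.card + A.card := by
  classical
  have hne : ((J \ I).powerset.filter (fun A => N.Indep ((I ∪ A : Finset E) : Set E))).Nonempty :=
    ⟨∅, by simp [hI]⟩
  obtain ⟨A, hA, hmax⟩ := Finset.exists_max_image _ Finset.card hne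
  rw [Finset.mem_filter, Finset.mem_powerset] at hA
  refine ⟨A, hA.1, hA.2, ?_⟩
  by_contra hlt
  push Not at hlt
  have hd : Disjoint I A := by
    rw [Finset.disjoint_left]
    intro x hx hx'
    exact (Finset.mem_sdiff.1 (hA.1 hx')).2 hx
  have hc : (I ∪ A).card < J.card := by
    rw [Finset.card_union_of_disjoint hd]; exact hlt
  obtain ⟨e, heJ, heI, hind⟩ := hA.2.augment_finset hJ hc
  have heIA : e ∉ I ∧ e ∉ A := by
    rw [Finset.mem_union, not_or] at heI; exact heI
  have hmem : insert e A ∈ (J \ I).powerset.filter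
      (fun A => N.Indep ((I ∪ A : Finset E) : Set E)) := by
    rw [Finset.mem_filter, Finset.mem_powerset]
    refine ⟨?_, ?_⟩
    · intro x hx
      rcases Finset.mem_insert.1 hx with rfl | hx
      · exact Finset.mem_sdiff.2 ⟨heJ, heIA.1⟩
      · exact hA.1 hx
    · have : I ∪ insert e A = insert e (I ∪ A) := by
        rw [Finset.union_insert]
      rw [this]
      simpa using hind
  have := hmax _ hmem
  rw [Finset.card_insert_of_notMem heIA.2] at this
  omega

theorem frame {k : ℕ} (M : Fin k → Matroid E) {B S : Finset E}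
    (hB : ∀ l, (M l).Indep (B : Set E)) (hS : ∀ l, (M l).Indep (S : Set E))
    (h1 : ∀ e ∈ S \ B, ¬ ∀ l, (M l).Indep ((insert e B : Finset E) : Set E))
    (h2 : ∀ y ∈ B, ∀ e ∈ S \ B, ∀ e' ∈ S \ B, e ≠ e' →
      ¬ ∀ l, (M l).Indep ((B.erase y ∪ {e, e'} : Finset E) : Set E)) :
    ∃ Fl Yl : Fin k → Finset E, (∀ l, Fl l ⊆ S \ B) ∧ (∀ l, Yl l ⊆ B \ S) ∧
      (∀ l m, l ≠ m → Disjoint (Fl l) (Fl m)) ∧ (∀ l m, l ≠ m → Disjoint (Yl l) (Yl m)) ∧
      (∀ l, (Yl l).card = (Fl l).card) ∧
      (∀ l, (M l).Indep ((B ∪ (univ.biUnion Fl \ Fl l) : Finset E) : Set E)) ∧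
      (∀ l, (M l).Indep (((B \ Yl l) ∪ univ.biUnion Fl : Finset E) : Set E)) ∧
      2 * (S \ B).card ≤ k * (B \ S).card + (univ.biUnion Fl).card := by
  classical
  choose V hV hVi hVc using fun l => extend_in (M l) (hB l) (hS l)
  -- the rest
  have hDc : ∀ l, ((S \ B) \ V l).card ≤ (B \ S).card := by
    intro l
    have e1 : ((S \ B) \ V l).card + (V l).card = (S \ B).card := by
      rw [Finset.card_sdiff_add_card_eq_card (hV l)]
    have e2 : (S \ B).card + (S ∩ B).card = S.card := Finset.card_sdiff_add_card_inter S B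
    have e3 : (B \ S).card + (B ∩ S).card = B.card := Finset.card_sdiff_add_card_inter B S
    rw [Finset.inter_comm] at e3
    have := hVc l
    omega
  set D : Fin k → Finset E := fun l => (S \ B) \ V l with hD
  set Fl : Fin k → Finset E := fun l => (D l).filter (fun e => ∀ m, m ≠ l → e ∉ D m) with hFl
  have hFD : ∀ l, Fl l ⊆ D l := fun l => Finset.filter_subset _ _
  have hDS : ∀ l, D l ⊆ S \ B := fun l => Finset.sdiff_subset
  have hFS : ∀ l, Fl l ⊆ S \ B := fun l => (hFD l).trans (hDS l)
  have hFdisj : ∀ l m, l ≠ m → Disjoint (Fl l) (Fl m) := by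
    intro l m hlm
    rw [Finset.disjoint_left]
    intro x hx hx'
    exact (Finset.mem_filter.1 hx).2 m (Ne.symm hlm) (hFD m hx')
  set F : Finset E := univ.biUnion Fl with hF
  have hFSB : F ⊆ S \ B := by
    intro x hx
    obtain ⟨l, -, hl⟩ := Finset.mem_biUnion.1 hx
    exact hFS l hl
  have hmemF : ∀ l x, x ∈ Fl l → x ∈ F := fun l x hx => Finset.mem_biUnion.2 ⟨l, mem_univ _, hx⟩
  have hFV : ∀ l, F \ Fl l ⊆ V l := by
    intro l x hx
    obtain ⟨hxF, hxl⟩ := Finset.mem_sdiff.1 hx
    obtain ⟨m, -, hm⟩ := Finset.mem_biUnion.1 hxF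
    have hml : l ≠ m := by
      rintro rfl
      exact hxl hm
    have hnD : x ∉ D l := (Finset.mem_filter.1 hm).2 l hml
    by_contra hxV
    exact hnD (Finset.mem_sdiff.2 ⟨hFS m hm, hxV⟩)
  have hP : ∀ l, (M l).Indep ((B ∪ (F \ Fl l) : Finset E) : Set E) := by
    intro l
    refine (hVi l).subset ?_
    exact_mod_cast Finset.union_subset_union_right (hFV l)
  -- the sets Y
  have hY : ∀ l, ∃ Y : Finset E, Y ⊆ B \ S ∧ Y.card = (Fl l).card ∧
      (M l).Indep (((B \ Y) ∪ F : Finset E) : Set E) := by
    intro l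
    have hJ0 : (M l).Indep ((F ∪ (B ∩ S) : Finset E) : Set E) := by
      refine (hS l).subset ?_
      have : F ∪ (B ∩ S) ⊆ S := Finset.union_subset (hFSB.trans Finset.sdiff_subset)
        Finset.inter_subset_right
      exact_mod_cast this
    obtain ⟨A, hA, hAi, hAc⟩ := extend_in (M l) hJ0 (hP l)
    have hAB : A ⊆ B \ S := by
      intro x hx
      obtain ⟨h3, h4⟩ := Finset.mem_sdiff.1 (hA hx)
      rw [Finset.mem_union, not_or] at h4
      have hxB : x ∈ B := by
        rcases Finset.mem_union.1 h3 with h | h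
        · exact h
        · exact absurd (Finset.mem_sdiff.1 h).1 h4.1
      refine Finset.mem_sdiff.2 ⟨hxB, fun hxS => h4.2 (Finset.mem_inter.2 ⟨hxB, hxS⟩)⟩
    have hdBF : Disjoint B (F \ Fl l) := by
      rw [Finset.disjoint_left]
      intro x hx hx'
      exact (Finset.mem_sdiff.1 (hFSB (Finset.mem_sdiff.1 hx').1)).2 hx
    have hdF : Disjoint F (B ∩ S) := by
      rw [Finset.disjoint_left]
      intro x hx hx'
      exact (Finset.mem_sdiff.1 (hFSB hx)).2 (Finset.mem_inter.1 hx').1
    rw [Finset.card_union_of_disjoint hdBF, Finset.card_union_of_disjoint hdF] at hAc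
    have hFl' : (F \ Fl l).card + (Fl l).card = F.card :=
      Finset.card_sdiff_add_card_eq_card (fun x hx => hmemF l x hx)
    have e3 : (B \ S).card + (B ∩ S).card = B.card := Finset.card_sdiff_add_card_inter B S
    have e4 : ((B \ S) \ A).card + A.card = (B \ S).card :=
      Finset.card_sdiff_add_card_eq_card hAB
    have hle : ((B \ S) \ A).card ≤ (Fl l).card := by omega
    have hle2 : (Fl l).card ≤ (B \ S).card := (Finset.card_le_card (hFD l)).trans (hDc l)
    obtain ⟨Y, hY1, hY2, hY3⟩ := Finset.exists_subsuperset_card_eq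
      (Finset.sdiff_subset : (B \ S) \ A ⊆ B \ S) hle hle2
    refine ⟨Y, hY2, hY3, hAi.subset ?_⟩
    have : (B \ Y) ∪ F ⊆ (F ∪ (B ∩ S)) ∪ A := by
      intro x hx
      rcases Finset.mem_union.1 hx with h | h
      · obtain ⟨hxB, hxY⟩ := Finset.mem_sdiff.1 h
        by_cases hxS : x ∈ S
        · exact Finset.mem_union_left _ (Finset.mem_union_right _ (Finset.mem_inter.2 ⟨hxB, hxS⟩))
        · by_cases hxA : x ∈ A
          · exact Finset.mem_union_right _ hxA
          · exact absurd (hY1 (Finset.mem_sdiff.2 ⟨Finset.mem_sdiff.2 ⟨hxB, hxS⟩, hxA⟩)) hxY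
      · exact Finset.mem_union_left _ (Finset.mem_union_left _ h)
    exact_mod_cast this
  choose Y hYB hYc hYi using hY
  -- exchange of one element of `Y l`
  have hex : ∀ l, ∀ y ∈ Y l, ∃ e ∈ Fl l,
      (M l).Indep ((insert e ((B ∪ (F \ Fl l)).erase y) : Finset E) : Set E) := by
    intro l y hy
    have hyB : y ∈ B := (Finset.mem_sdiff.1 (hYB l hy)).1
    have hi : (M l).Indep (((B ∪ (F \ Fl l)).erase y : Finset E) : Set E) := by
      refine (hP l).subset ?_
      exact_mod_cast Finset.erase_subset _ _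
    have hdBF : Disjoint B (F \ Fl l) := by
      rw [Finset.disjoint_left]
      intro x hx hx'
      exact (Finset.mem_sdiff.1 (hFSB (Finset.mem_sdiff.1 hx').1)).2 hx
    have hdBF' : Disjoint (B \ Y l) F := by
      rw [Finset.disjoint_left]
      intro x hx hx'
      exact (Finset.mem_sdiff.1 (hFSB hx')).2 (Finset.mem_sdiff.1 hx).1
    have hFl' : (F \ Fl l).card + (Fl l).card = F.card :=
      Finset.card_sdiff_add_card_eq_card (fun x hx => hmemF l x hx)
    have e5 : (B \ Y l).card + (Y l).card = B.card :=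
      Finset.card_sdiff_add_card_eq_card ((hYB l).trans Finset.sdiff_subset)
    have hlt : ((B ∪ (F \ Fl l)).erase y).card < ((B \ Y l) ∪ F).card := by
      rw [Finset.card_erase_of_mem (Finset.mem_union_left _ hyB),
        Finset.card_union_of_disjoint hdBF, Finset.card_union_of_disjoint hdBF']
      have hBpos : 0 < B.card := Finset.card_pos.2 ⟨y, hyB⟩
      have := hYc l
      omega
    obtain ⟨e, he1, he2, he3⟩ := hi.augment_finset (hYi l) hlt
    refine ⟨e, ?_, by simpa using he3⟩
    rcases Finset.mem_union.1 he1 with h | h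
    · exfalso
      obtain ⟨heB, heY⟩ := Finset.mem_sdiff.1 h
      apply he2
      refine Finset.mem_erase.2 ⟨?_, Finset.mem_union_left _ heB⟩
      rintro rfl
      exact heY hy
    · by_contra hne
      apply he2
      refine Finset.mem_erase.2 ⟨?_, Finset.mem_union_right _ (Finset.mem_sdiff.2 ⟨h, hne⟩)⟩
      rintro rfl
      exact (Finset.mem_sdiff.1 (hFSB h)).2 hyB
  have hYdisj : ∀ l m, l ≠ m → Disjoint (Y l) (Y m) := by
    intro l m hlm
    rw [Finset.disjoint_left]
    intro y hyl hym
    obtain ⟨e, he, hei⟩ := hex l y hyl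
    obtain ⟨e', he', hei'⟩ := hex m y hym
    have hyB : y ∈ B := (Finset.mem_sdiff.1 (hYB l hyl)).1
    have hne : e ≠ e' := by
      rintro rfl
      exact (Finset.disjoint_left.1 (hFdisj l m hlm) he) he'
    refine h2 y hyB e (hFS l he) e' (hFS m he') hne ?_
    intro j
    have hin : ∀ x i, x ∈ Fl i → i ≠ j → x ∈ F \ Fl j := by
      intro x i hx hij
      refine Finset.mem_sdiff.2 ⟨hmemF i x hx, fun hxj => ?_⟩
      exact (Finset.disjoint_left.1 (hFdisj i j hij) hx) hxj
    have hney : ∀ x i, x ∈ Fl i → x ≠ y := by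
      intro x i hx hxy
      rw [hxy] at hx
      exact (Finset.mem_sdiff.1 (hFS i hx)).2 hyB
    by_cases hj : j = l
    · subst hj
      refine hei.subset ?_
      have : B.erase y ∪ {e, e'} ⊆ insert e ((B ∪ (F \ Fl j)).erase y) := by
        intro x hx
        rcases Finset.mem_union.1 hx with h | h
        · obtain ⟨h3, h4⟩ := Finset.mem_erase.1 h
          exact Finset.mem_insert_of_mem (Finset.mem_erase.2 ⟨h3, Finset.mem_union_left _ h4⟩)
        · rw [Finset.mem_insert, Finset.mem_singleton] at h
          rcases h with rfl | rfl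
          · exact Finset.mem_insert_self _ _
          · exact Finset.mem_insert_of_mem (Finset.mem_erase.2 ⟨hney _ m he',
              Finset.mem_union_right _ (hin _ m he' (Ne.symm hlm))⟩)
      exact_mod_cast this
    · by_cases hj' : j = m
      · subst hj'
        refine hei'.subset ?_
        have : B.erase y ∪ {e, e'} ⊆ insert e' ((B ∪ (F \ Fl j)).erase y) := by
          intro x hx
          rcases Finset.mem_union.1 hx with h | h
          · obtain ⟨h3, h4⟩ := Finset.mem_erase.1 h
            exact Finset.mem_insert_of_mem (Finset.mem_erase.2 ⟨h3, Finset.mem_union_left _ h4⟩)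
          · rw [Finset.mem_insert, Finset.mem_singleton] at h
            rcases h with rfl | rfl
            · exact Finset.mem_insert_of_mem (Finset.mem_erase.2 ⟨hney _ l he,
                Finset.mem_union_right _ (hin _ l he hlm)⟩)
            · exact Finset.mem_insert_self _ _
        exact_mod_cast this
      · refine (hP j).subset ?_
        have : B.erase y ∪ {e, e'} ⊆ B ∪ (F \ Fl j) := by
          intro x hx
          rcases Finset.mem_union.1 hx with h | h
          · exact Finset.mem_union_left _ (Finset.mem_of_mem_erase h)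
          · rw [Finset.mem_insert, Finset.mem_singleton] at h
            rcases h with rfl | rfl
            · exact Finset.mem_union_right _ (hin _ l he (Ne.symm hj))
            · exact Finset.mem_union_right _ (hin _ m he' (Ne.symm hj'))
        exact_mod_cast this
  refine ⟨Fl, Y, hFS, hYB, hFdisj, hYdisj, hYc, hP, hYi, ?_⟩
  -- counting
  have hc1 : ∀ e ∈ S \ B, 1 ≤ (univ.filter (fun l => e ∈ D l)).card := by
    intro e he
    rw [Nat.one_le_iff_ne_zero, Ne, Finset.card_eq_zero]
    intro h0
    refine h1 e he fun l => (hVi l).subset ?_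
    have heV : e ∈ V l := by
      by_contra hne
      have : l ∈ univ.filter (fun l => e ∈ D l) :=
        Finset.mem_filter.2 ⟨mem_univ _, Finset.mem_sdiff.2 ⟨he, hne⟩⟩
      rw [h0] at this
      exact absurd this (Finset.notMem_empty _)
    have : insert e B ⊆ B ∪ V l := by
      intro x hx
      rcases Finset.mem_insert.1 hx with rfl | h
      · exact Finset.mem_union_right _ heV
      · exact Finset.mem_union_left _ h
    exact_mod_cast this
  have hc2 : ∀ e ∈ (S \ B) \ F, 2 ≤ (univ.filter (fun l => e ∈ D l)).card := by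
    intro e he
    obtain ⟨heS, heF⟩ := Finset.mem_sdiff.1 he
    by_contra hlt
    have h3 : (univ.filter (fun l => e ∈ D l)).card = 1 := by
      have := hc1 e heS
      omega
    obtain ⟨l, hl⟩ := Finset.card_eq_one.1 h3
    have hlD : e ∈ D l := by
      have : l ∈ univ.filter (fun l => e ∈ D l) := by rw [hl]; exact Finset.mem_singleton_self _
      exact (Finset.mem_filter.1 this).2
    apply heF
    refine hmemF l e (Finset.mem_filter.2 ⟨hlD, fun m hm hmD => hm ?_⟩)
    have : m ∈ univ.filter (fun l => e ∈ D l) := Finset.mem_filter.2 ⟨mem_univ _, hmD⟩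
    rw [hl] at this
    exact Finset.mem_singleton.1 this
  have hsum : ∑ e ∈ S \ B, (univ.filter (fun l => e ∈ D l)).card = ∑ l, (D l).card := by
    have h5 : ∀ l, (D l).card = ∑ e ∈ S \ B, if e ∈ D l then 1 else 0 := by
      intro l
      rw [Finset.sum_ite_mem, Finset.inter_eq_right.2 (hDS l), Finset.card_eq_sum_ones]
    simp_rw [h5, Finset.card_filter]
    rw [Finset.sum_comm]
  have hup : ∑ l, (D l).card ≤ k * (B \ S).card := by
    calc ∑ l, (D l).card ≤ ∑ _l : Fin k, (B \ S).card := Finset.sum_le_sum fun l _ => hDc l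
      _ = k * (B \ S).card := by simp
  have hlow : 2 * ((S \ B) \ F).card + F.card ≤
      ∑ e ∈ S \ B, (univ.filter (fun l => e ∈ D l)).card := by
    rw [← Finset.sum_sdiff hFSB]
    have a1 : 2 * ((S \ B) \ F).card ≤
        ∑ e ∈ (S \ B) \ F, (univ.filter (fun l => e ∈ D l)).card := by
      calc 2 * ((S \ B) \ F).card = ∑ _e ∈ (S \ B) \ F, 2 := by
            rw [Finset.sum_const, smul_eq_mul, mul_comm]
        _ ≤ _ := Finset.sum_le_sum hc2
    have a2 : F.card ≤ ∑ e ∈ F, (univ.filter (fun l => e ∈ D l)).card := by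
      calc F.card = ∑ _e ∈ F, 1 := by rw [Finset.sum_const, smul_eq_mul, mul_one]
        _ ≤ _ := Finset.sum_le_sum fun e he => hc1 e (hFSB he)
    exact Nat.add_le_add a1 a2
  have e6 : ((S \ B) \ F).card + F.card = (S \ B).card :=
    Finset.card_sdiff_add_card_eq_card hFSB
  change 2 * (S \ B).card ≤ k * (B \ S).card + F.card
  omega

end Pool.Agent.Helper74.LS
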