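import Mathlib
import Pool.Agent.Helper98.RS.Defs

/-! LS (1): the number of generators of the normal closure of an element in a finite nilpotent group. -/

set_option autoImplicit false

open scoped Pointwise

namespace Pool.Agent.Helper74.LS

open Subgroup Pool.Agent.Helper98.RS

section Balls

variable {G : Type} [Group G] (S : Set G)

theorem one_mem_B0 : (1 : G) ∈ (({1} : Set G) ∪ S ∪ S⁻¹) := Or.inl (Or.inl rfl)

theorem one_mem_Bl (n : ℕ) : (1 : G) ∈ Bl S n := Set.one_mem_pow (one_mem_B0 S)

theorem mul_mem_Bl {m n : ℕ} {x y : G} (hx : x ∈ Bl S m) (hy : y ∈ Bl S n) : x * y ∈ Bl S (m + n) := by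
  unfold Bl at *
  rw [pow_add]
  exact Set.mul_mem_mul hx hy

theorem Bl_mono {m n : ℕ} (h : m ≤ n) : Bl S m ⊆ Bl S n := Set.pow_subset_pow_right (one_mem_B0 S) h

theorem mem_Bl_one {x : G} (hx : x ∈ S) : x ∈ Bl S 1 := by
  unfold Bl
  rw [pow_one]
  exact Or.inl (Or.inr hx)

theorem inv_mem_Bl {n : ℕ} {x : G} (hx : x ∈ Bl S n) : x⁻¹ ∈ Bl S n := by
  have h : Bl S n = (Bl S n)⁻¹ := by
    unfold Bl
    rw [← inv_pow]
    congr 1
    rw [Set.union_inv, Set.union_inv, inv_inv, Set.union_assoc, Set.union_assoc, Set.union_comm S⁻¹ S]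
    simp
  rw [h] at hx
  simpa using hx

theorem finite_Bl (hS : S.Finite) (n : ℕ) : (Bl S n).Finite := by
  unfold Bl
  induction n with
  | zero => simp
  | succ n ih =>
    rw [pow_succ]
    exact ih.mul (((Set.finite_singleton 1).union hS).union hS.inv)

theorem image_Bl {P : Type} [Group P] (f : G →* P) (n : ℕ) : f '' (Bl S n) = Bl (f '' S) n := by
  unfold Bl
  rw [Set.image_pow]
  congr 1
  rw [Set.image_union, Set.image_union, Set.image_singleton, map_one, Set.image_inv]

end Balls

/-- The commutator subgroup of a finite nilpotent group consists of non generators. -/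
theorem nongen {X : Type} [Group X] [Finite X] [Group.IsNilpotent X] (H : Subgroup X)
    (h : H ⊔ commutator X = ⊤) : H = ⊤ := by
  by_contra hne
  obtain ⟨M, hM, hHM⟩ := (IsCoatomic.eq_top_or_exists_le_coatom H).resolve_left hne
  have hMn : M.Normal := NormalizerCondition.normal_of_coatom M Group.normalizerCondition_of_isNilpotent hM
  have : Nontrivial (X ⧸ M) := by
    rw [QuotientGroup.nontrivial_iff]
    exact hM.1
  have hc := Group.IsNilpotent.center_ne_bot (G := X ⧸ M)
  have h1 : M < (center (X ⧸ M)).comap (QuotientGroup.mk' M) := by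
    refine lt_of_le_of_ne ?_ ?_
    · intro m hm
      rw [mem_comap]
      have : (QuotientGroup.mk' M) m = 1 := by simpa using hm
      rw [this]
      exact one_mem _
    · intro he
      apply hc
      rw [eq_bot_iff]
      intro q hq
      obtain ⟨y, rfl⟩ := QuotientGroup.mk'_surjective M q
      have : y ∈ (center (X ⧸ M)).comap (QuotientGroup.mk' M) := hq
      rw [← he] at this
      simpa using this
  have h2 : (center (X ⧸ M)).comap (QuotientGroup.mk' M) = ⊤ := hM.2 _ h1
  have h3 : commutator X ≤ M := by
    rw [commutator_def, commutator_le]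
    intro a _ b _
    have ha : a ∈ (center (X ⧸ M)).comap (QuotientGroup.mk' M) := by rw [h2]; exact mem_top a
    rw [mem_comap, mem_center_iff] at ha
    have hb := ha (QuotientGroup.mk' M b)
    have h5 : (QuotientGroup.mk' M) (a * b * a⁻¹ * b⁻¹) = 1 := by
      rw [map_mul, map_mul, map_mul, map_inv, map_inv, ← hb]
      group
    have h6 : a * b * a⁻¹ * b⁻¹ ∈ M := (QuotientGroup.eq_one_iff _).mp h5
    exact h6
  apply hM.1
  rw [eq_top_iff, ← h]
  exact sup_le hHM h3

theorem nongen_sub {P : Type} [Group P] [Finite P] [Group.IsNilpotent P] (X H : Subgroup P) (hHX : H ≤ X)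
    (h : X ≤ H ⊔ ⁅X, X⁆) : X = H := by
  have h1 : H.subgroupOf X ⊔ commutator X = ⊤ := by
    have h2 : (H.subgroupOf X ⊔ commutator X).map X.subtype = X := by
      rw [Subgroup.map_sup, Subgroup.map_subtype_commutator, Subgroup.subgroupOf_map_subtype,
        inf_eq_left.mpr hHX]
      refine le_antisymm (sup_le hHX (Subgroup.commutator_le_self X)) h
    rw [eq_top_iff]
    rintro ⟨y, hy⟩ _
    have hy' : y ∈ (H.subgroupOf X ⊔ _root_.commutator X).map X.subtype := by rw [h2]; exact hy
    obtain ⟨w, hw, hwy⟩ := hy'
    have : w = ⟨y, hy⟩ := by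
      ext
      exact hwy
    rw [← this]
    exact hw
  have h3 := nongen _ h1
  rw [Subgroup.subgroupOf_eq_top] at h3
  exact le_antisymm h3 hHX

/-- Ordered subset products of an independent family are distinct. -/
theorem prod_inj {G : Type} [Group G] (n : ℕ) (g : ℕ → G)
    (h : ∀ i < n, g i ∉ closure (g '' {j | j < i})) (w w' : ℕ → Bool)
    (hw : ((List.range n).map fun i => if w i then g i else 1).prod
      = ((List.range n).map fun i => if w' i then g i else 1).prod) : ∀ i < n, w i = w' i := by
  induction n with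
  | zero => intro i hi; omega
  | succ n ih =>
    have hmem : ∀ v : ℕ → Bool, ((List.range n).map fun i => if v i then g i else 1).prod
        ∈ closure (g '' {j | j < n}) := by
      intro v
      apply Subgroup.list_prod_mem
      intro x hx
      rw [List.mem_map] at hx
      obtain ⟨i, hi, rfl⟩ := hx
      rw [List.mem_range] at hi
      split_ifs
      · exact subset_closure ⟨i, hi, rfl⟩
      · exact one_mem _
    rw [List.range_succ, List.map_append, List.map_append, List.prod_append, List.prod_append] at hw
    simp only [List.map_cons, List.map_nil, List.prod_cons, List.prod_nil, mul_one] at hw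
    have hn : w n = w' n := by
      by_contra hne
      cases hwn : w n <;> cases hwn' : w' n
      · exact hne (by rw [hwn, hwn'])
      · rw [hwn, hwn'] at hw
        simp only [Bool.false_eq_true, if_false, if_true, mul_one] at hw
        apply h n (Nat.lt_succ_self n)
        have : g n = (((List.range n).map fun i => if w' i then g i else 1).prod)⁻¹ *
            ((List.range n).map fun i => if w i then g i else 1).prod := by
          rw [hw]
          group
        rw [this]
        exact mul_mem (inv_mem (hmem w')) (hmem w)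
      · rw [hwn, hwn'] at hw
        simp only [Bool.false_eq_true, if_false, if_true, mul_one] at hw
        apply h n (Nat.lt_succ_self n)
        have : g n = (((List.range n).map fun i => if w i then g i else 1).prod)⁻¹ *
            ((List.range n).map fun i => if w' i then g i else 1).prod := by
          rw [← hw]
          group
        rw [this]
        exact mul_mem (inv_mem (hmem w)) (hmem w')
      · exact hne (by rw [hwn, hwn'])
    rw [hn] at hw
    have hw2 := mul_right_cancel hw
    have h3 := ih (fun i hi => h i (by omega)) hw2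
    intro i hi
    rcases Nat.lt_succ_iff_lt_or_eq.mp hi with h4 | h4
    · exact h3 i h4
    · rw [h4]; exact hn

theorem prod_mem_Bl {G : Type} [Group G] (S : Set G) (M n : ℕ) (g : ℕ → G) (w : ℕ → Bool)
    (hg : ∀ i < n, g i ∈ Bl S M) :
    ((List.range n).map fun i => if w i then g i else 1).prod ∈ Bl S (n * M) := by
  induction n with
  | zero => simpa using one_mem_Bl S 0
  | succ n ih =>
    rw [List.range_succ, List.map_append, List.prod_append]
    simp only [List.map_cons, List.map_nil, List.prod_cons, List.prod_nil, mul_one]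
    rw [Nat.succ_mul]
    refine mul_mem_Bl S (ih fun i hi => hg i (by omega)) ?_
    split_ifs
    · exact hg n (Nat.lt_succ_self n)
    · exact one_mem_Bl S M

theorem two_pow_le {G : Type} [Group G] (S : Set G) (hS : S.Finite) (M n : ℕ) (g : ℕ → G)
    (hg : ∀ i < n, g i ∈ Bl S M) (h : ∀ i < n, g i ∉ closure (g '' {j | j < i})) :
    2 ^ n ≤ Nat.card (Bl S (n * M)) := by
  have : Finite (Bl S (n * M)) := (finite_Bl S hS _).to_subtype
  let F : (Fin n → Bool) → Bl S (n * M) := fun w =>
    ⟨((List.range n).map fun i => if (if hi : i < n then w ⟨i, hi⟩ else false) then g i else 1).prod,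
      prod_mem_Bl S M n g _ hg⟩
  have hF : Function.Injective F := by
    intro w w' hww
    have h1 := prod_inj n g h (fun i => if hi : i < n then w ⟨i, hi⟩ else false)
      (fun i => if hi : i < n then w' ⟨i, hi⟩ else false) (Subtype.ext_iff.mp hww)
    ext i
    have h2 := h1 i.1 i.2
    simpa using h2
  have h3 := Nat.card_le_card_of_injective F hF
  simpa using h3

/-- (1) Generators of the normal closure of an element of a finite nilpotent group. -/
theorem gen_bound {P : Type} [Group P] [Finite P] [Group.IsNilpotent P] (S : Set P)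
    (hS : closure S = ⊤) (x : P) (L : ℕ) (hx : x ∈ Bl S L) :
    ∃ (D : ℕ) (z : ℕ → P), (∀ i < D, z i ∈ Bl S i) ∧
      normalClosure {x} = closure ((fun i => (z i)⁻¹ * x * z i) '' {i | i < D}) ∧
      2 ^ D ≤ Nat.card (Bl S (D * (L + 2 * D))) := by
  classical
  set X : Subgroup P := normalClosure {x} with hX
  have hXn : X.Normal := normalClosure_normal
  have hCn : (⁅X, X⁆ : Subgroup P).Normal := inferInstance
  let Good : ℕ → Prop := fun n => ∃ z : ℕ → P, (∀ i < n, z i ∈ Bl S i) ∧
    ∀ i < n, (z i)⁻¹ * x * z i ∉ ⁅X, X⁆ ⊔ closure ((fun i => (z i)⁻¹ * x * z i) '' {j | j < i})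
  have hgc : ∀ n (z : ℕ → P), (∀ i < n, z i ∈ Bl S i) →
      (∀ i < n, (z i)⁻¹ * x * z i ∉ ⁅X, X⁆ ⊔ closure ((fun i => (z i)⁻¹ * x * z i) '' {j | j < i})) →
      2 ^ n ≤ Nat.card (Bl S (n * (L + 2 * n))) := by
    intro n z hz1 hz2
    refine two_pow_le S (Set.toFinite S) (L + 2 * n) n (fun i => (z i)⁻¹ * x * z i) ?_ ?_
    · intro i hi
      have h1 := Bl_mono S hi.le (hz1 i hi)
      have h2 := mul_mem_Bl S (mul_mem_Bl S (inv_mem_Bl S h1) hx) h1
      refine Bl_mono S (by omega) h2
    · intro i hi hc
      exact hz2 i hi ((le_sup_right : _ ≤ ⁅X, X⁆ ⊔ _) hc)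
  have hbd : ∀ n, Good n → n ≤ Nat.card P := by
    rintro n ⟨z, hz1, hz2⟩
    have h1 := hgc n z hz1 hz2
    have h2 : Nat.card (Bl S (n * (L + 2 * n))) ≤ Nat.card P :=
      Nat.card_le_card_of_injective _ Subtype.val_injective
    exact (Nat.lt_two_pow_self.le).trans (h1.trans h2)
  have hG0 : Good 0 := ⟨fun _ => 1, fun i hi => by omega, fun i hi => by omega⟩
  set D := Nat.findGreatest Good (Nat.card P) with hD
  have hGD : Good D := Nat.findGreatest_spec (Nat.zero_le _) hG0
  have hGD1 : ¬ Good (D + 1) := by
    intro hc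
    have := Nat.le_findGreatest (hbd _ hc) hc
    omega
  obtain ⟨z, hz1, hz2⟩ := hGD
  refine ⟨D, z, hz1, ?_, hgc D z hz1 hz2⟩
  set H : Subgroup P := closure ((fun i => (z i)⁻¹ * x * z i) '' {i | i < D}) with hH
  have hcX : ∀ y : P, y⁻¹ * x * y ∈ X := by
    intro y
    have h1 : x ∈ X := subset_normalClosure (Set.mem_singleton x)
    have := hXn.conj_mem x h1 y⁻¹
    simpa using this
  have hHX : H ≤ X := by
    rw [hH, closure_le]
    rintro _ ⟨i, _, rfl⟩
    exact hcX _
  have hmax : ∀ y ∈ Bl S D, y⁻¹ * x * y ∈ ⁅X, X⁆ ⊔ H := by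
    intro y hy
    by_contra hc
    apply hGD1
    refine ⟨fun i => if i < D then z i else y, ?_, ?_⟩
    · intro i hi
      dsimp only
      split_ifs with h
      · exact hz1 i h
      · have : i = D := by omega
        rw [this]; exact hy
    · intro i hi
      have himg : ∀ k ≤ D, (fun i => (if i < D then z i else y)⁻¹ * x * (if i < D then z i else y)) '' {j | j < k}
          = (fun i => (z i)⁻¹ * x * z i) '' {j | j < k} := by
        intro k hk
        apply Set.image_congr
        intro j hj
        have : j < D := lt_of_lt_of_le hj hk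
        simp only [this, if_true]
      rw [himg i (by omega)]
      rcases Nat.lt_or_ge i D with h | h
      · simp only [h, if_true]
        exact hz2 i h
      · have : i = D := by omega
        subst this
        simp only [lt_irrefl, if_false]
        exact hc
  have hnorm : ∀ s ∈ S ∪ S⁻¹, ∀ h ∈ ⁅X, X⁆ ⊔ H, s⁻¹ * h * s ∈ ⁅X, X⁆ ⊔ H := by
    intro s hs
    have hs1 : s ∈ Bl S 1 := by
      rcases hs with hs | hs
      · exact mem_Bl_one S hs
      · have := inv_mem_Bl S (mem_Bl_one S hs)
        simpa using this
    have hle : ⁅X, X⁆ ⊔ H ≤ (⁅X, X⁆ ⊔ H).comap (MulAut.conj s⁻¹).toMonoidHom := by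
      refine sup_le ?_ ?_
      · intro c hc
        rw [mem_comap]
        refine (le_sup_left : ⁅X, X⁆ ≤ ⁅X, X⁆ ⊔ H) ?_
        have := hCn.conj_mem c hc s⁻¹
        simpa using this
      · rw [hH, closure_le]
        rintro _ ⟨i, hi, rfl⟩
        have hi' : i < D := hi
        have h1 : z i * s ∈ Bl S D := Bl_mono S (show i + 1 ≤ D from hi') (mul_mem_Bl S (hz1 i hi') hs1)
        have h2 := hmax _ h1
        simp only [SetLike.mem_coe, mem_comap]
        rw [hH] at h2
        have h3 : (MulAut.conj s⁻¹).toMonoidHom ((z i)⁻¹ * x * z i) = (z i * s)⁻¹ * x * (z i * s) := by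
          simp [mul_assoc]
        rw [h3]
        exact h2
    intro h hh
    have := hle hh
    rw [mem_comap] at this
    simpa using this
  have hN : (⁅X, X⁆ ⊔ H).Normal := by
    have h1 : closure S ≤ normalizer ((⁅X, X⁆ ⊔ H : Subgroup P) : Set P) := by
      rw [closure_le]
      intro s hs
      rw [SetLike.mem_coe, mem_normalizer_iff]
      intro h
      constructor
      · intro hh
        have := hnorm s⁻¹ (Or.inr (by simpa using hs)) h hh
        simpa using this
      · intro hh
        have := hnorm s (Or.inl hs) _ hh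
        have h2 : s⁻¹ * (s * h * s⁻¹) * s = h := by group
        rwa [h2] at this
    rw [hS] at h1
    exact normalizer_eq_top_iff.mp (top_le_iff.mp h1)
  have hXH : X ≤ H ⊔ ⁅X, X⁆ := by
    rw [sup_comm]
    have := hN
    rw [hX]
    apply normalClosure_le_normal
    rw [Set.singleton_subset_iff]
    have := hmax 1 (one_mem_Bl S D)
    simpa using this
  exact nongen_sub X H hHX hXH

end Pool.Agent.Helper74.LS
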